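import Mathlib

set_option autoImplicit false

/-!
The identity `d_k(m) s_k(m) = ∑_j C(k,j) C(k+j,j) B_j(m)` for natural `m`.
-/

namespace Pool.Agent.Lib.MP_2a941c_nt

open Finset Polynomial

/-- Vandermonde in the symmetric form -/
lemma vander (n l : ℕ) : (n + l).choose n = ∑ a ∈ range (n + 1), n.choose a * l.choose a := by
  rw [Nat.add_choose_eq, Finset.Nat.sum_antidiagonal_eq_sum_range_succ
    (fun i j => n.choose i * l.choose j), ← Finset.sum_range_reflect]
  apply Finset.sum_congr rfl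
  intro a ha
  rw [mem_range] at ha
  have h1 : n + 1 - 1 - a = n - a := by omega
  have h2 : n - (n - a) = a := by omega
  rw [h1, h2, Nat.choose_symm (by omega)]

lemma key_sum (M q : ℕ) (h : M ≤ q) :
    ∑ r ∈ range (M + 1), (-1 : ℚ) ^ r * (M.choose r) * ((2 * M - 2 * r).choose q) =
      (M.choose (q - M)) * 2 ^ (2 * M - q) := by
  have e1 : ((-1 : ℚ[X]) + (1 + X) ^ 2) ^ M = X ^ M * (X + C 2) ^ M := by
    rw [← mul_pow]
    congr 1
    have : (C 2 : ℚ[X]) = 2 := map_ofNat C 2
    rw [this]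
    ring
  have e2 := congrArg (fun p : ℚ[X] => p.coeff q) e1
  rw [add_pow, finsetSum_coeff, coeff_X_pow_mul', if_pos h, coeff_X_add_C_pow] at e2
  have e3 : ∀ r ∈ range (M + 1), (((-1 : ℚ[X]) ^ r * ((1 + X) ^ 2) ^ (M - r) * (M.choose r : ℚ[X])).coeff q)
      = (-1 : ℚ) ^ r * (M.choose r) * ((2 * M - 2 * r).choose q) := by
    intro r hr
    rw [mem_range] at hr
    have f1 : ((-1 : ℚ[X]) ^ r * ((1 + X) ^ 2) ^ (M - r) * (M.choose r : ℚ[X])) =
        C ((-1 : ℚ) ^ r * (M.choose r)) * (1 + X) ^ (2 * M - 2 * r) := by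
      rw [← pow_mul]
      have : 2 * (M - r) = 2 * M - 2 * r := by omega
      rw [this]
      simp only [map_mul, map_pow, map_neg, map_one, map_natCast]
      ring
    rw [f1, coeff_C_mul, coeff_one_add_X_pow]
  rw [Finset.sum_congr rfl e3] at e2
  rw [e2]
  by_cases hq : q ≤ 2 * M
  · have : M - (q - M) = 2 * M - q := by omega
    rw [this]
    ring
  · have : M < q - M := by omega
    rw [Nat.choose_eq_zero_of_lt this]
    simp

/-- `d_k(m)` for natural `m` -/
def dn (k m : ℕ) : ℚ := ∑ n ∈ range (m + 1), (2 : ℚ) ^ n * (m.choose n) * (k.choose n)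

/-- `s_k(m)` for natural `m` -/
def sn (k m : ℕ) : ℚ := ∑ l ∈ range (m + 1), (k.choose l : ℚ) * (m.choose l) * ((m + l).choose l)

lemma choose_aux (m r a : ℕ) (hr : r ≤ m) :
    ((2 * m - 2 * r).choose m) * ((m - 2 * r).choose a) =
      ((2 * m - 2 * r).choose (m + a)) * ((m + a).choose a) := by
  by_cases h : m + a ≤ 2 * m - 2 * r
  · have h1 := Nat.choose_mul (n := 2 * m - 2 * r) (k := m + a) (s := m) (by omega)
    have h2 : 2 * m - 2 * r - m = m - 2 * r := by omega
    have h3 : m + a - m = a := by omega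
    rw [h2, h3] at h1
    rw [← h1]
    congr 1
    have := Nat.choose_symm_add (a := m) (b := a)
    rw [this]
  · rw [Nat.choose_eq_zero_of_lt (show 2 * m - 2 * r < m + a by omega), zero_mul]
    by_cases h2 : m ≤ 2 * m - 2 * r
    · rw [Nat.choose_eq_zero_of_lt (show m - 2 * r < a by omega), mul_zero]
    · rw [Nat.choose_eq_zero_of_lt (show 2 * m - 2 * r < m by omega), zero_mul]

lemma dn_eq (k m N : ℕ) (h : m ≤ N) :
    dn k m = ∑ n ∈ range (N + 1), (2 : ℚ) ^ n * (m.choose n) * (k.choose n) := by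
  unfold dn
  apply Finset.sum_subset
  · intro x hx
    rw [mem_range] at *
    omega
  · intro x _ hx
    rw [mem_range] at hx
    rw [Nat.choose_eq_zero_of_lt (show m < x by omega)]
    simp

lemma sn_eq_dn (k m : ℕ) :
    2 ^ m * sn k m = ∑ r ∈ range (m + 1),
      (-1 : ℚ) ^ r * (m.choose r) * ((2 * m - 2 * r).choose m) * dn k (m - 2 * r) := by
  have h1 : ∀ r ∈ range (m + 1),
      (-1 : ℚ) ^ r * (m.choose r) * ((2 * m - 2 * r).choose m) * dn k (m - 2 * r) =
      ∑ a ∈ range (m + 1), 2 ^ a * (k.choose a) * ((m + a).choose a) *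
        ((-1 : ℚ) ^ r * (m.choose r) * ((2 * m - 2 * r).choose (m + a))) := by
    intro r hr
    rw [mem_range] at hr
    rw [dn_eq k (m - 2 * r) m (by omega), Finset.mul_sum]
    apply Finset.sum_congr rfl
    intro a _
    have h2 := choose_aux m r a (by omega)
    have h3 : (((2 * m - 2 * r).choose m : ℕ) : ℚ) * ((m - 2 * r).choose a : ℕ) =
      ((2 * m - 2 * r).choose (m + a) : ℕ) * ((m + a).choose a : ℕ) := by exact_mod_cast h2
    calc (-1 : ℚ) ^ r * (m.choose r) * ((2 * m - 2 * r).choose m) *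
          (2 ^ a * ((m - 2 * r).choose a) * (k.choose a))
        = (-1 : ℚ) ^ r * (m.choose r) * 2 ^ a * (k.choose a) *
          ((((2 * m - 2 * r).choose m : ℕ) : ℚ) * ((m - 2 * r).choose a : ℕ)) := by ring
      _ = _ := by rw [h3]; ring
  rw [Finset.sum_congr rfl h1, Finset.sum_comm]
  unfold sn
  rw [Finset.mul_sum]
  apply Finset.sum_congr rfl
  intro a ha
  rw [mem_range] at ha
  rw [← Finset.mul_sum, key_sum m (m + a) (by omega)]
  have h4 : m + a - m = a := by omega
  have h5 : 2 * m - (m + a) = m - a := by omega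
  rw [h4, h5]
  have h6 : (2 : ℚ) ^ m = 2 ^ a * 2 ^ (m - a) := by
    rw [← pow_add]
    congr 1
    omega
  rw [h6]
  ring

/-- the umbral functional `X^n ↦ C(k,n)` -/
noncomputable def Phi (k : ℕ) : ℚ[X] →ₗ[ℚ] ℚ :=
  Polynomial.lsum (fun n => (k.choose n : ℚ) • LinearMap.id)

lemma Phi_X_pow (k n : ℕ) : Phi k (X ^ n) = k.choose n := by
  unfold Phi
  rw [Polynomial.lsum_apply, ← Polynomial.monomial_one_right_eq_X_pow, Polynomial.sum_monomial_index]
  · simp
  · simp

lemma Phi_mon (k n l : ℕ) : Phi k (X ^ n * (1 + X) ^ l) = (k + l).choose (n + l) := by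
  induction l generalizing n with
  | zero => simpa using Phi_X_pow k n
  | succ l ih =>
    have e : (X : ℚ[X]) ^ n * (1 + X) ^ (l + 1) = X ^ n * (1 + X) ^ l + X ^ (n + 1) * (1 + X) ^ l := by
      ring
    rw [e, map_add, ih n, ih (n + 1)]
    have e1 : k + (l + 1) = (k + l) + 1 := by ring
    have e2 : n + (l + 1) = (n + l) + 1 := by ring
    have e3 : n + 1 + l = (n + l) + 1 := by ring
    rw [e1, e2, e3, Nat.choose_succ_succ]
    push_cast
    ring

lemma Phi_smul (k : ℕ) (c : ℚ) (p : ℚ[X]) : Phi k (C c * p) = c * Phi k p := by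
  rw [← Polynomial.smul_eq_C_mul, map_smul, smul_eq_mul]

lemma dn_Phi (k m : ℕ) : dn k m = Phi k ((1 + C 2 * X) ^ m) := by
  rw [add_comm, add_pow, map_sum]
  unfold dn
  apply Finset.sum_congr rfl
  intro n _
  have : (C 2 * X : ℚ[X]) ^ n * 1 ^ (m - n) * (m.choose n : ℚ[X]) =
      C (2 ^ n * (m.choose n : ℚ)) * X ^ n := by
    simp only [map_mul, map_pow, map_natCast, one_pow, mul_pow]
    ring
  rw [this, Phi_smul, Phi_X_pow]

lemma dn_mirror (k m : ℕ) :
    dn k m = ∑ l ∈ range (m + 1),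
      (2 : ℚ) ^ l * (-1) ^ (m - l) * (m.choose l) * ((k + l).choose l) := by
  rw [dn_Phi]
  have e : (1 + C 2 * X : ℚ[X]) = C 2 * (1 + X) + (-1) := by
    have : (C 2 : ℚ[X]) = 2 := map_ofNat C 2
    rw [this]
    ring
  rw [e, add_pow, map_sum]
  apply Finset.sum_congr rfl
  intro l _
  have : (C 2 * (1 + X) : ℚ[X]) ^ l * (-1) ^ (m - l) * (m.choose l : ℚ[X]) =
      C (2 ^ l * (-1) ^ (m - l) * (m.choose l : ℚ)) * (X ^ 0 * (1 + X) ^ l) := by
    simp only [map_mul, map_pow, map_natCast, mul_pow, map_neg, map_one, pow_zero, one_mul]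
    ring
  rw [this, Phi_smul, Phi_mon]
  simp

/-- product of two `d`'s through the umbral functional -/
lemma dn_mul_Phi (k m N : ℕ) :
    dn k m * dn k N = Phi k (∑ n ∈ range (m + 1), ∑ l ∈ range (N + 1),
      C (((n + l).choose n : ℚ) * (m.choose n) * (N.choose l) * (-1) ^ (N - l)) *
        ((C 2 * X) ^ n * (C 2 * (1 + X)) ^ l)) := by
  rw [dn_mirror k N]
  unfold dn
  rw [Finset.sum_mul_sum, map_sum]
  apply Finset.sum_congr rfl
  intro n _
  rw [map_sum]
  apply Finset.sum_congr rfl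
  intro l _
  have e : C (((n + l).choose n : ℚ) * (m.choose n) * (N.choose l) * (-1) ^ (N - l)) *
        ((C 2 * X) ^ n * (C 2 * (1 + X)) ^ l) =
      C (((n + l).choose n : ℚ) * (m.choose n) * (N.choose l) * (-1) ^ (N - l) * 2 ^ n * 2 ^ l) *
        (X ^ n * (1 + X) ^ l) := by
    simp only [map_mul, map_pow, map_natCast, mul_pow, map_neg, map_one]
    ring
  rw [e, Phi_smul, Phi_mon]
  have h : (k.choose n) * ((k + l).choose l) = ((n + l).choose n) * ((k + l).choose (n + l)) := by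
    by_cases hnk : n ≤ k
    · have h1 := Nat.choose_mul (n := k + l) (k := n + l) (s := l) (by omega)
      have h2 : k + l - l = k := by omega
      have h3 : n + l - l = n := by omega
      rw [h2, h3] at h1
      have h4 := Nat.choose_symm_add (a := n) (b := l)
      rw [h4, mul_comm ((n + l).choose l), h1]
      ring
    · rw [Nat.choose_eq_zero_of_lt (show k < n by omega),
        Nat.choose_eq_zero_of_lt (show k + l < n + l by omega)]
      simp
  have h' : ((k.choose n : ℕ) : ℚ) * ((k + l).choose l : ℕ) =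
      ((n + l).choose n : ℕ) * ((k + l).choose (n + l) : ℕ) := by exact_mod_cast h
  calc 2 ^ n * ((m.choose n : ℕ) : ℚ) * (k.choose n : ℕ) *
        (2 ^ l * (-1) ^ (N - l) * (N.choose l : ℕ) * ((k + l).choose l : ℕ))
      = 2 ^ n * ((m.choose n : ℕ) : ℚ) * (2 ^ l * (-1) ^ (N - l) * (N.choose l : ℕ)) *
        (((k.choose n : ℕ) : ℚ) * ((k + l).choose l : ℕ)) := by ring
    _ = _ := by rw [h']; ring

end Pool.Agent.Lib.MP_2a941c_nt
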