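import Mathlib
import Pool.Agent.Lib.MP_2a941c_nt.Ident

set_option autoImplicit false

namespace Pool.Agent.Lib.MP_2a941c_nt

open Finset Polynomial

section ringId

variable {R : Type*} [CommRing R]

lemma binom_shift (m a : ℕ) (A D : R) :
    ∑ n ∈ range (m + 1), (m.choose n : R) * (n.choose a) * A ^ n * D ^ (m - n) =
      (m.choose a) * A ^ a * (A + D) ^ (m - a) := by
  by_cases ha : a ≤ m
  · have e : m + 1 = a + (m - a + 1) := by omega
    rw [e, Finset.sum_range_add]
    have h1 : ∑ n ∈ range a, (m.choose n : R) * (n.choose a) * A ^ n * D ^ (m - n) = 0 := by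
      apply Finset.sum_eq_zero
      intro n hn
      rw [mem_range] at hn
      rw [Nat.choose_eq_zero_of_lt hn]
      simp
    rw [h1, zero_add, add_pow, Finset.mul_sum]
    apply Finset.sum_congr rfl
    intro i hi
    rw [mem_range] at hi
    have h2 := Nat.choose_mul (n := m) (k := a + i) (s := a) (by omega)
    have h3 : a + i - a = i := by omega
    rw [h3] at h2
    have h4 : ((m.choose (a + i) : ℕ) : R) * ((a + i).choose a : ℕ) =
      (m.choose a : ℕ) * ((m - a).choose i : ℕ) := by
      rw [← Nat.cast_mul, h2, Nat.cast_mul]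
    rw [h4]
    have h5 : m - (a + i) = m - a - i := by omega
    rw [h5, pow_add]
    ring
  · rw [Nat.choose_eq_zero_of_lt (show m < a by omega)]
    simp only [Nat.cast_zero, zero_mul]
    apply Finset.sum_eq_zero
    intro n hn
    rw [mem_range] at hn
    rw [Nat.choose_eq_zero_of_lt (show n < a by omega)]
    simp

lemma vander' (n l m : ℕ) (h : n ≤ m) :
    (n + l).choose n = ∑ a ∈ range (m + 1), n.choose a * l.choose a := by
  rw [vander]
  apply Finset.sum_subset
  · intro x hx
    rw [mem_range] at *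
    omega
  · intro x _ hx
    rw [mem_range] at hx
    rw [Nat.choose_eq_zero_of_lt (show n < x by omega)]
    simp

lemma ring_id (m N : ℕ) (A B : R) :
    ∑ n ∈ range (m + 1), ∑ l ∈ range (N + 1),
      (((n + l).choose n : R) * (m.choose n) * (N.choose l) * (-1) ^ (N - l)) * (A ^ n * B ^ l) =
    ∑ a ∈ range (m + 1), (m.choose a : R) * (N.choose a) * (A * B) ^ a *
      ((A + 1) ^ (m - a) * (B - 1) ^ (N - a)) := by
  have h1 : ∀ n ∈ range (m + 1), ∀ l ∈ range (N + 1),
      (((n + l).choose n : R) * (m.choose n) * (N.choose l) * (-1) ^ (N - l)) * (A ^ n * B ^ l) =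
      ∑ a ∈ range (m + 1), ((m.choose n : R) * (n.choose a) * A ^ n * 1 ^ (m - n)) *
        ((N.choose l : R) * (l.choose a) * B ^ l * (-1) ^ (N - l)) := by
    intro n hn l _
    rw [mem_range] at hn
    rw [vander' n l m (by omega)]
    push_cast
    simp only [Finset.sum_mul]
    apply Finset.sum_congr rfl
    intro a _
    ring
  have h2 : ∑ n ∈ range (m + 1), ∑ l ∈ range (N + 1),
      (((n + l).choose n : R) * (m.choose n) * (N.choose l) * (-1) ^ (N - l)) * (A ^ n * B ^ l) =
      ∑ n ∈ range (m + 1), ∑ l ∈ range (N + 1), ∑ a ∈ range (m + 1),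
        ((m.choose n : R) * (n.choose a) * A ^ n * 1 ^ (m - n)) *
        ((N.choose l : R) * (l.choose a) * B ^ l * (-1) ^ (N - l)) :=
    Finset.sum_congr rfl (fun n hn => Finset.sum_congr rfl (fun l hl => h1 n hn l hl))
  rw [h2]
  have h3 : ∑ n ∈ range (m + 1), ∑ l ∈ range (N + 1), ∑ a ∈ range (m + 1),
        ((m.choose n : R) * (n.choose a) * A ^ n * 1 ^ (m - n)) *
        ((N.choose l : R) * (l.choose a) * B ^ l * (-1) ^ (N - l)) =
      ∑ a ∈ range (m + 1), (∑ n ∈ range (m + 1),
        ((m.choose n : R) * (n.choose a) * A ^ n * 1 ^ (m - n))) *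
        (∑ l ∈ range (N + 1), ((N.choose l : R) * (l.choose a) * B ^ l * (-1) ^ (N - l))) := by
    have : ∀ n ∈ range (m + 1), ∑ l ∈ range (N + 1), ∑ a ∈ range (m + 1),
        ((m.choose n : R) * (n.choose a) * A ^ n * 1 ^ (m - n)) *
        ((N.choose l : R) * (l.choose a) * B ^ l * (-1) ^ (N - l)) =
        ∑ a ∈ range (m + 1), ∑ l ∈ range (N + 1),
        ((m.choose n : R) * (n.choose a) * A ^ n * 1 ^ (m - n)) *
        ((N.choose l : R) * (l.choose a) * B ^ l * (-1) ^ (N - l)) :=
      fun n _ => Finset.sum_comm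
    rw [Finset.sum_congr rfl this, Finset.sum_comm]
    apply Finset.sum_congr rfl
    intro a _
    rw [Finset.sum_mul_sum]
  rw [h3]
  apply Finset.sum_congr rfl
  intro a _
  rw [binom_shift m a A 1, binom_shift N a B (-1), mul_pow, ← sub_eq_add_neg]
  ring

lemma vander_poly (m N : ℕ) (Y : R) :
    ∑ a ∈ range (m + 1), (m.choose a : R) * (N.choose a) * Y ^ a * (Y + 1) ^ (N - a) =
      ∑ n ∈ range (N + 1), ((m + n).choose n : R) * (N.choose n) * Y ^ n := by
  have h1 : ∀ a ∈ range (m + 1),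
      (m.choose a : R) * (N.choose a) * Y ^ a * (Y + 1) ^ (N - a) =
      ∑ n ∈ range (N + 1), (N.choose n : R) * Y ^ n * ((m.choose a : R) * (n.choose a)) := by
    intro a _
    have := binom_shift N a Y 1
    calc (m.choose a : R) * (N.choose a) * Y ^ a * (Y + 1) ^ (N - a)
        = (m.choose a : R) * ((N.choose a) * Y ^ a * (Y + 1) ^ (N - a)) := by ring
      _ = _ := by
        rw [← this, Finset.mul_sum]
        apply Finset.sum_congr rfl
        intro n _
        rw [one_pow]
        ring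
  rw [Finset.sum_congr rfl h1, Finset.sum_comm]
  apply Finset.sum_congr rfl
  intro n _
  rw [← Finset.mul_sum]
  have h2 := vander m n
  have h3 : ((m + n).choose n : R) = ∑ a ∈ range (m + 1), (m.choose a : R) * (n.choose a) := by
    rw [← Nat.choose_symm_add, h2]
    push_cast
    rfl
  rw [h3]
  ring

end ringId

/-- `Phi` on powers of `4X(1+X)` -/
lemma Phi_Y (k j : ℕ) : Phi k ((C 2 * X * (C 2 * (1 + X))) ^ j) = 4 ^ j * (k + j).choose (2 * j) := by
  have e : (C 2 * X * (C 2 * (1 + X)) : ℚ[X]) ^ j = C (4 ^ j) * (X ^ j * (1 + X) ^ j) := by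
    have h : (C (4 ^ j) : ℚ[X]) = (C 2 * C 2) ^ j := by
      rw [← C_mul, ← C_pow]
      norm_num
    have h' : (C 2 * X * (C 2 * (1 + X)) : ℚ[X]) = (C 2 * C 2) * (X * (1 + X)) := by ring
    rw [h, h', mul_pow (C 2 * C 2 : ℚ[X]), mul_pow X]
  rw [e, Phi_smul, Phi_mon]
  congr 3
  ring

lemma dn_mul_dn (k m r : ℕ) (h : 2 * r ≤ m) :
    dn k m * dn k (m - 2 * r) = ∑ n ∈ range (m + 1), ∑ e ∈ range (m + 1),
      ((m + n).choose n : ℚ) * ((m - 2 * r).choose n) * (r.choose e) *
        (4 ^ (n + e) * (k + (n + e)).choose (2 * (n + e))) := by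
  rw [dn_mul_Phi]
  set N := m - 2 * r with hN
  set Y : ℚ[X] := C 2 * X * (C 2 * (1 + X)) with hY
  have c2 : (C 2 : ℚ[X]) = 2 := map_ofNat C 2
  have h1 : (∑ n ∈ range (m + 1), ∑ l ∈ range (N + 1),
      C (((n + l).choose n : ℚ) * (m.choose n) * (N.choose l) * (-1) ^ (N - l)) *
        ((C 2 * X) ^ n * (C 2 * (1 + X)) ^ l) : ℚ[X]) =
      (Y + 1) ^ r * ∑ n ∈ range (N + 1), ((m + n).choose n : ℚ[X]) * (N.choose n) * Y ^ n := by
    have g1 := ring_id m N (C 2 * X : ℚ[X]) (C 2 * (1 + X))
    have g2 : (∑ n ∈ range (m + 1), ∑ l ∈ range (N + 1),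
      C (((n + l).choose n : ℚ) * (m.choose n) * (N.choose l) * (-1) ^ (N - l)) *
        ((C 2 * X) ^ n * (C 2 * (1 + X)) ^ l) : ℚ[X]) =
        ∑ n ∈ range (m + 1), ∑ l ∈ range (N + 1),
      (((n + l).choose n : ℚ[X]) * (m.choose n : ℚ[X]) * (N.choose l : ℚ[X]) *
        (-1 : ℚ[X]) ^ (N - l)) * ((C 2 * X : ℚ[X]) ^ n * (C 2 * (1 + X) : ℚ[X]) ^ l) := by
      apply Finset.sum_congr rfl
      intro n _
      apply Finset.sum_congr rfl
      intro l _
      simp only [map_mul, map_pow, map_natCast, map_neg, map_one]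
    rw [g2, g1, ← vander_poly m N Y, Finset.mul_sum]
    apply Finset.sum_congr rfl
    intro a _
    by_cases haN : a ≤ N
    · have z1 : (C 2 * X + 1 : ℚ[X]) = 1 + 2 * X := by rw [c2]; ring
      have z2 : (C 2 * (1 + X) - 1 : ℚ[X]) = 1 + 2 * X := by rw [c2]; ring
      have z3 : Y + 1 = (1 + 2 * X) ^ 2 := by rw [hY, c2]; ring
      rw [z1, z2, z3, ← pow_add, ← pow_mul, ← pow_mul, ← hY]
      have z4 : m - a + (N - a) = 2 * r + 2 * (N - a) := by omega
      rw [z4, pow_add]
      ring
    · rw [Nat.choose_eq_zero_of_lt (show N < a by omega)]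
      simp
  rw [h1]
  have h2 : ((Y + 1) ^ r * ∑ n ∈ range (N + 1), ((m + n).choose n : ℚ[X]) * (N.choose n) * Y ^ n) =
      ∑ n ∈ range (m + 1), ∑ e ∈ range (m + 1),
        C (((m + n).choose n : ℚ) * (N.choose n) * (r.choose e)) * Y ^ (n + e) := by
    have g3 : ∑ n ∈ range (N + 1), ((m + n).choose n : ℚ[X]) * (N.choose n) * Y ^ n =
        ∑ n ∈ range (m + 1), ((m + n).choose n : ℚ[X]) * (N.choose n) * Y ^ n := by
      apply Finset.sum_subset
      · intro x hx
        rw [mem_range] at *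
        omega
      · intro x _ hx
        rw [mem_range] at hx
        rw [Nat.choose_eq_zero_of_lt (show N < x by omega)]
        simp
    have g4 : (Y + 1) ^ r = ∑ e ∈ range (m + 1), (r.choose e : ℚ[X]) * Y ^ e := by
      rw [add_pow]
      simp only [one_pow, mul_one]
      have : ∑ x ∈ range (r + 1), Y ^ x * (r.choose x : ℚ[X]) =
          ∑ x ∈ range (m + 1), Y ^ x * (r.choose x : ℚ[X]) := by
        apply Finset.sum_subset
        · intro x hx
          rw [mem_range] at *
          omega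
        · intro x _ hx
          rw [mem_range] at hx
          rw [Nat.choose_eq_zero_of_lt (show r < x by omega)]
          simp
      rw [this]
      apply Finset.sum_congr rfl
      intro x _
      ring
    rw [g3, g4, mul_comm, Finset.sum_mul_sum]
    apply Finset.sum_congr rfl
    intro n _
    apply Finset.sum_congr rfl
    intro e _
    simp only [map_mul, map_natCast]
    rw [pow_add]
    ring
  rw [h2, map_sum]
  apply Finset.sum_congr rfl
  intro n _
  rw [map_sum]
  apply Finset.sum_congr rfl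
  intro e _
  rw [Phi_smul, hY, Phi_Y]

end Pool.Agent.Lib.MP_2a941c_nt
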