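import Mathlib
import Pool.Agent.Lib.MP_2a941c_nt.Ident2

set_option autoImplicit false

namespace Pool.Agent.Lib.MP_2a941c_nt

open Finset Polynomial

/-- the inner alternating sum -/
lemma inner_sum (m n e : ℕ) (he : e ≤ m) :
    ∑ r ∈ range (m + 1), (-1 : ℚ) ^ r * (m.choose r) * ((2 * m - 2 * r).choose m) *
      (((m + n).choose n : ℚ) * ((m - 2 * r).choose n) * (r.choose e)) =
    ((m + n).choose n : ℚ) ^ 2 * (-1) ^ e * (m.choose e) * ((m - e).choose (n + e)) *
      2 ^ (2 * (m - e) - (m + n)) := by
  have h1 : ∀ r ∈ range (m + 1), (-1 : ℚ) ^ r * (m.choose r) * ((2 * m - 2 * r).choose m) *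
      (((m + n).choose n : ℚ) * ((m - 2 * r).choose n) * (r.choose e)) =
      ((m + n).choose n : ℚ) ^ 2 * ((-1 : ℚ) ^ r * ((m.choose r : ℚ) * (r.choose e)) *
        ((2 * m - 2 * r).choose (m + n))) := by
    intro r hr
    rw [mem_range] at hr
    have h2 := choose_aux m r n (by omega)
    have h3 : (((2 * m - 2 * r).choose m : ℕ) : ℚ) * ((m - 2 * r).choose n : ℕ) =
      ((2 * m - 2 * r).choose (m + n) : ℕ) * ((m + n).choose n : ℕ) := by exact_mod_cast h2
    calc (-1 : ℚ) ^ r * (m.choose r) * ((2 * m - 2 * r).choose m) *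
      (((m + n).choose n : ℚ) * ((m - 2 * r).choose n) * (r.choose e)) =
        (-1 : ℚ) ^ r * (m.choose r) * ((m + n).choose n : ℚ) * (r.choose e) *
        ((((2 * m - 2 * r).choose m : ℕ) : ℚ) * ((m - 2 * r).choose n : ℕ)) := by ring
      _ = _ := by rw [h3]; ring
  rw [Finset.sum_congr rfl h1, ← Finset.mul_sum]
  have e1 : m + 1 = e + (m - e + 1) := by omega
  rw [e1, Finset.sum_range_add]
  have h4 : ∑ r ∈ range e, (-1 : ℚ) ^ r * ((m.choose r : ℚ) * (r.choose e)) *
        ((2 * m - 2 * r).choose (m + n)) = 0 := by
    apply Finset.sum_eq_zero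
    intro r hr
    rw [mem_range] at hr
    rw [Nat.choose_eq_zero_of_lt hr]
    simp
  rw [h4, zero_add]
  have h5 : ∀ i ∈ range (m - e + 1), (-1 : ℚ) ^ (e + i) * ((m.choose (e + i) : ℚ) *
        ((e + i).choose e)) * ((2 * m - 2 * (e + i)).choose (m + n)) =
      (-1) ^ e * (m.choose e) * ((-1 : ℚ) ^ i * ((m - e).choose i) *
        ((2 * (m - e) - 2 * i).choose (m + n))) := by
    intro i _
    have h6 := Nat.choose_mul (n := m) (k := e + i) (s := e) (by omega)
    have h7 : e + i - e = i := by omega
    rw [h7] at h6
    have h8 : ((m.choose (e + i) : ℕ) : ℚ) * ((e + i).choose e : ℕ) =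
      (m.choose e : ℕ) * ((m - e).choose i : ℕ) := by exact_mod_cast h6
    have h9 : 2 * m - 2 * (e + i) = 2 * (m - e) - 2 * i := by omega
    rw [h8, h9, pow_add]
    ring
  rw [Finset.sum_congr rfl h5, ← Finset.mul_sum, key_sum (m - e) (m + n) (by omega)]
  have h10 : m + n - (m - e) = n + e := by omega
  rw [h10]
  ring

lemma choose_triple (m n e : ℕ) :
    ((m + n).choose n) * (m.choose e) * ((m - e).choose (n + e)) =
      ((m + n).choose (2 * (n + e))) * ((2 * (n + e)).choose (n + e)) * ((n + e).choose n) := by
  by_cases h : n + 2 * e ≤ m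
  · -- all factorials
    obtain ⟨c, hc⟩ := Nat.exists_eq_add_of_le h
    subst hc
    have a1 : n + 2 * e + c - e = n + e + c := by omega
    have f1 := Nat.add_choose_mul_factorial_mul_factorial (n + 2 * e + c) n
    have f2 := Nat.choose_mul_factorial_mul_factorial (n := n + 2 * e + c) (k := e) (by omega)
    have f3 := Nat.choose_mul_factorial_mul_factorial (n := n + e + c) (k := n + e) (by omega)
    have f4 := Nat.choose_mul_factorial_mul_factorial (n := n + 2 * e + c + n) (k := 2 * (n + e))
      (by omega)
    have f5 := Nat.choose_mul_factorial_mul_factorial (n := 2 * (n + e)) (k := n + e) (by omega)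
    have f6 := Nat.choose_mul_factorial_mul_factorial (n := n + e) (k := n) (by omega)
    have b1 : n + 2 * e + c - e = n + e + c := by omega
    have b2 : n + e + c - (n + e) = c := by omega
    have b3 : n + 2 * e + c + n - 2 * (n + e) = c := by omega
    have b4 : 2 * (n + e) - (n + e) = n + e := by omega
    have b5 : n + e - n = e := by omega
    rw [b1] at f2
    rw [b2] at f3
    rw [b3] at f4
    rw [b4] at f5
    rw [b5] at f6
    rw [a1]
    have sym : (n + 2 * e + c + n).choose n = (n + 2 * e + c + n).choose (n + 2 * e + c) :=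
      (Nat.choose_symm_add).symm
    rw [sym]
    have p1 : 0 < (n + 2 * e + c).factorial := Nat.factorial_pos _
    have p2 : 0 < (n + e + c).factorial := Nat.factorial_pos _
    have p3 : 0 < n.factorial := Nat.factorial_pos _
    have p4 : 0 < e.factorial := Nat.factorial_pos _
    have p5 : 0 < (n + e).factorial := Nat.factorial_pos _
    have p6 : 0 < c.factorial := Nat.factorial_pos _
    have p7 : 0 < (2 * (n + e)).factorial := Nat.factorial_pos _
    -- multiply both sides by n! e! (n+e)! c!
    apply Nat.eq_of_mul_eq_mul_right (show 0 < n.factorial * e.factorial * (n + e).factorial *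
      c.factorial by positivity)
    have L : (n + 2 * e + c + n).choose (n + 2 * e + c) * (n + 2 * e + c).choose e *
        (n + e + c).choose (n + e) * (n.factorial * e.factorial * (n + e).factorial *
        c.factorial) = (n + 2 * e + c + n).factorial := by
      calc (n + 2 * e + c + n).choose (n + 2 * e + c) * (n + 2 * e + c).choose e *
        (n + e + c).choose (n + e) * (n.factorial * e.factorial * (n + e).factorial *
        c.factorial) = (n + 2 * e + c + n).choose (n + 2 * e + c) * n.factorial *
          ((n + 2 * e + c).choose e * e.factorial *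
            ((n + e + c).choose (n + e) * (n + e).factorial * c.factorial)) := by ring
        _ = (n + 2 * e + c + n).choose (n + 2 * e + c) * n.factorial *
          (n + 2 * e + c).factorial := by rw [f3, f2]
        _ = (n + 2 * e + c + n).choose (n + 2 * e + c) * (n + 2 * e + c).factorial *
          n.factorial := by ring
        _ = _ := by rw [← sym]; exact f1
    have Rr : (n + 2 * e + c + n).choose (2 * (n + e)) * (2 * (n + e)).choose (n + e) *
        (n + e).choose n * (n.factorial * e.factorial * (n + e).factorial *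
        c.factorial) = (n + 2 * e + c + n).factorial := by
      calc (n + 2 * e + c + n).choose (2 * (n + e)) * (2 * (n + e)).choose (n + e) *
        (n + e).choose n * (n.factorial * e.factorial * (n + e).factorial *
        c.factorial) = (n + 2 * e + c + n).choose (2 * (n + e)) *
          ((2 * (n + e)).choose (n + e) * (n + e).factorial *
          ((n + e).choose n * n.factorial * e.factorial)) * c.factorial := by ring
        _ = (n + 2 * e + c + n).choose (2 * (n + e)) * (2 * (n + e)).factorial *
          c.factorial := by rw [f6, f5]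
        _ = _ := f4
    rw [L, Rr]
  · have z1 : (m - e).choose (n + e) = 0 := Nat.choose_eq_zero_of_lt (by omega)
    have z2 : (m + n).choose (2 * (n + e)) = 0 := Nat.choose_eq_zero_of_lt (by omega)
    rw [z1, z2]
    simp

/-- the coefficients `B_j(m)` -/
def Bn (j m : ℕ) : ℚ := ∑ n ∈ range (j + 1),
  (2 : ℚ) ^ n * (-1) ^ (j - n) * (j.choose n) * ((m + n).choose n) * ((m + n).choose (2 * j))

lemma Bn_eq_zero (j m : ℕ) (h : m < j) : Bn j m = 0 := by
  unfold Bn
  apply Finset.sum_eq_zero
  intro n hn
  rw [mem_range] at hn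
  rw [Nat.choose_eq_zero_of_lt (show m + n < 2 * j by omega)]
  simp

lemma prod_double (k m : ℕ) :
    dn k m * sn k m = ∑ n ∈ range (m + 1), ∑ e ∈ range (m + 1),
      (2 : ℚ) ^ n * (-1) ^ e * ((n + e).choose n) * ((m + n).choose n) *
        ((m + n).choose (2 * (n + e))) *
        (((2 * (n + e)).choose (n + e)) * (k + (n + e)).choose (2 * (n + e))) := by
  have h0 : (2 : ℚ) ^ m ≠ 0 := by positivity
  apply mul_left_cancel₀ h0
  have h1 : 2 ^ m * (dn k m * sn k m) = dn k m * (2 ^ m * sn k m) := by ring
  rw [h1, sn_eq_dn, Finset.mul_sum]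
  have h2 : ∀ r ∈ range (m + 1), dn k m * ((-1 : ℚ) ^ r * (m.choose r) *
      ((2 * m - 2 * r).choose m) * dn k (m - 2 * r)) =
      ∑ n ∈ range (m + 1), ∑ e ∈ range (m + 1),
        (4 ^ (n + e) * ((k + (n + e)).choose (2 * (n + e)) : ℚ)) *
        ((-1 : ℚ) ^ r * (m.choose r) * ((2 * m - 2 * r).choose m) *
        (((m + n).choose n : ℚ) * ((m - 2 * r).choose n) * (r.choose e))) := by
    intro r hr0
    rw [mem_range] at hr0
    by_cases hr : 2 * r ≤ m
    · calc dn k m * ((-1 : ℚ) ^ r * (m.choose r) * ((2 * m - 2 * r).choose m) * dn k (m - 2 * r))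
          = ((-1 : ℚ) ^ r * (m.choose r) * ((2 * m - 2 * r).choose m)) *
            (dn k m * dn k (m - 2 * r)) := by ring
        _ = _ := by
          rw [dn_mul_dn k m r hr, Finset.mul_sum]
          apply Finset.sum_congr rfl
          intro n _
          rw [Finset.mul_sum]
          apply Finset.sum_congr rfl
          intro e _
          ring
    · have z : (2 * m - 2 * r).choose m = 0 := Nat.choose_eq_zero_of_lt (by omega)
      rw [z]
      simp
  rw [Finset.sum_congr rfl h2, Finset.sum_comm, Finset.mul_sum]
  apply Finset.sum_congr rfl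
  intro n _
  rw [Finset.sum_comm, Finset.mul_sum]
  apply Finset.sum_congr rfl
  intro e he
  rw [mem_range] at he
  rw [← Finset.mul_sum, inner_sum m n e (by omega)]
  have h3 := choose_triple m n e
  have h4 : ((m + n).choose n : ℚ) * (m.choose e) * ((m - e).choose (n + e)) =
      ((m + n).choose (2 * (n + e))) * ((2 * (n + e)).choose (n + e)) * ((n + e).choose n) := by
    exact_mod_cast h3
  by_cases hc : n + 2 * e ≤ m
  · have h5 : (4 : ℚ) ^ (n + e) * 2 ^ (2 * (m - e) - (m + n)) = 2 ^ m * 2 ^ n := by
      have : (4 : ℚ) ^ (n + e) = 2 ^ (2 * (n + e)) := by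
        rw [pow_mul]
        norm_num
      rw [this, ← pow_add, ← pow_add]
      congr 1
      omega
    calc 4 ^ (n + e) * ((k + (n + e)).choose (2 * (n + e)) : ℚ) *
          (((m + n).choose n : ℚ) ^ 2 * (-1) ^ e * (m.choose e) * ((m - e).choose (n + e)) *
          2 ^ (2 * (m - e) - (m + n)))
        = (4 ^ (n + e) * 2 ^ (2 * (m - e) - (m + n))) *
          ((k + (n + e)).choose (2 * (n + e)) : ℚ) * ((m + n).choose n : ℚ) * (-1) ^ e *
          (((m + n).choose n : ℚ) * (m.choose e) * ((m - e).choose (n + e))) := by ring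
      _ = _ := by rw [h5, h4]; ring
  · have z1 : (m - e).choose (n + e) = 0 := Nat.choose_eq_zero_of_lt (by omega)
    have z2 : (m + n).choose (2 * (n + e)) = 0 := Nat.choose_eq_zero_of_lt (by omega)
    rw [z1, z2]
    simp

/-- **Main identity** for natural `m`. -/
theorem dn_mul_sn (k m : ℕ) :
    dn k m * sn k m = ∑ j ∈ range (k + 1), (k.choose j : ℚ) * ((k + j).choose j) * Bn j m := by
  rw [prod_double]
  -- regroup
  set g : ℕ → ℕ → ℚ := fun n j => (2 : ℚ) ^ n * (-1) ^ (j - n) * (j.choose n) *
    ((m + n).choose n) * ((m + n).choose (2 * j)) with hg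
  set c : ℕ → ℚ := fun j => ((2 * j).choose j : ℚ) * (k + j).choose (2 * j) with hc
  have h1 : ∀ n ∈ range (m + 1), ∑ e ∈ range (m + 1),
      (2 : ℚ) ^ n * (-1) ^ e * ((n + e).choose n) * ((m + n).choose n) *
        ((m + n).choose (2 * (n + e))) *
        (((2 * (n + e)).choose (n + e)) * (k + (n + e)).choose (2 * (n + e))) =
      ∑ j ∈ range (m + 1), g n j * c j := by
    intro n hn
    rw [mem_range] at hn
    have s1 : ∑ j ∈ range (m + 1), g n j * c j =
        ∑ e ∈ range (m + 1 - n), g n (n + e) * c (n + e) := by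
      have e1 : m + 1 = n + (m + 1 - n) := by omega
      conv_lhs => rw [e1, Finset.sum_range_add]
      have : ∑ x ∈ range n, g n x * c x = 0 := by
        apply Finset.sum_eq_zero
        intro x hx
        rw [mem_range] at hx
        simp only [hg]
        rw [Nat.choose_eq_zero_of_lt hx]
        simp
      rw [this, zero_add]
    rw [s1]
    symm
    have s2 : ∑ e ∈ range (m + 1 - n), g n (n + e) * c (n + e) =
        ∑ e ∈ range (m + 1), g n (n + e) * c (n + e) := by
      apply Finset.sum_subset
      · intro x hx
        rw [mem_range] at *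
        omega
      · intro x _ hx
        rw [mem_range] at hx
        simp only [hg]
        rw [Nat.choose_eq_zero_of_lt (show m + n < 2 * (n + x) by omega)]
        simp
    rw [s2]
    apply Finset.sum_congr rfl
    intro e _
    simp only [hg, hc]
    have : n + e - n = e := by omega
    rw [this]
  rw [Finset.sum_congr rfl h1, Finset.sum_comm]
  have h2 : ∀ j ∈ range (m + 1), ∑ n ∈ range (m + 1), g n j * c j = Bn j m * c j := by
    intro j hj
    rw [mem_range] at hj
    rw [← Finset.sum_mul]
    congr 1
    unfold Bn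
    symm
    apply Finset.sum_subset
    · intro x hx
      rw [mem_range] at *
      omega
    · intro x _ hx
      rw [mem_range] at hx
      rw [Nat.choose_eq_zero_of_lt (show j < x by omega)]
      simp
  rw [Finset.sum_congr rfl h2]
  have h3 : ∀ j, Bn j m * c j = (k.choose j : ℚ) * ((k + j).choose j) * Bn j m := by
    intro j
    have a1 := Nat.choose_mul (n := k + j) (k := 2 * j) (s := j) (by omega)
    have a2 : k + j - j = k := by omega
    have a3 : 2 * j - j = j := by omega
    rw [a2, a3] at a1
    have a4 : ((k + j).choose (2 * j) : ℚ) * ((2 * j).choose j) =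
      ((k + j).choose j) * (k.choose j) := by exact_mod_cast a1
    simp only [hc]
    calc Bn j m * (((2 * j).choose j : ℚ) * (k + j).choose (2 * j))
        = Bn j m * (((k + j).choose (2 * j) : ℚ) * ((2 * j).choose j)) := by ring
      _ = _ := by rw [a4]; ring
  rw [Finset.sum_congr rfl (fun j _ => h3 j)]
  -- change of range
  have h4 : ∑ j ∈ range (m + 1), (k.choose j : ℚ) * ((k + j).choose j) * Bn j m =
      ∑ j ∈ range (m + k + 1), (k.choose j : ℚ) * ((k + j).choose j) * Bn j m := by
    apply Finset.sum_subset
    · intro x hx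
      rw [mem_range] at *
      omega
    · intro x _ hx
      rw [mem_range] at hx
      rw [Bn_eq_zero x m (by omega)]
      simp
  have h5 : ∑ j ∈ range (k + 1), (k.choose j : ℚ) * ((k + j).choose j) * Bn j m =
      ∑ j ∈ range (m + k + 1), (k.choose j : ℚ) * ((k + j).choose j) * Bn j m := by
    apply Finset.sum_subset
    · intro x hx
      rw [mem_range] at *
      omega
    · intro x _ hx
      rw [mem_range] at hx
      rw [Nat.choose_eq_zero_of_lt (show k < x by omega)]
      simp
  rw [h4, h5]

end Pool.Agent.Lib.MP_2a941c_nt
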