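import Mathlib

set_option autoImplicit false

/-!
The ring of functions `k ↦ ∑_j b_j C(k,j) C(k+j,j)` with integer `b_j`.
-/

namespace Pool.Agent.Lib.MP_2a941c_nt

open Finset

/-- `c_j(k) = C(k,j) C(k+j,j)` -/
def cc (j k : ℕ) : ℤ := (k.choose j : ℤ) * ((k + j).choose j)

lemma cc_eq_zero (j k : ℕ) (h : k < j) : cc j k = 0 := by
  unfold cc
  rw [Nat.choose_eq_zero_of_lt h]
  simp

def InR (f : ℕ → ℤ) : Prop :=
  ∃ b : ℕ → ℤ, ∀ k, f k = ∑ j ∈ range (k + 1), b j * cc j k

lemma cc_succ (j k : ℕ) :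
    ((j : ℤ) + 1) ^ 2 * cc (j + 1) k = ((k : ℤ) * (k + 1) - j * (j + 1)) * cc j k := by
  unfold cc
  rcases lt_or_ge k j with h | h
  · rw [Nat.choose_eq_zero_of_lt h, Nat.choose_eq_zero_of_lt (show k < j + 1 by omega)]
    simp
  · have h1 := Nat.choose_succ_right_eq k j
    have h2 := Nat.add_one_mul_choose_eq (k + j) j
    have h3 := Nat.choose_succ_right_eq k j
    -- (k + j + 1).choose (j+1) * (j+1) = (k+j+1) * (k+j).choose j
    have e1 : (k.choose (j + 1) : ℤ) * ((j : ℤ) + 1) = (k.choose j : ℤ) * ((k : ℤ) - j) := by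
      have : ((k - j : ℕ) : ℤ) = (k : ℤ) - j := by
        push_cast [Nat.cast_sub h]
        ring
      rw [← this]
      exact_mod_cast h1
    have e2 : ((k + (j + 1)).choose (j + 1) : ℤ) * ((j : ℤ) + 1) =
        ((k : ℤ) + j + 1) * ((k + j).choose j : ℤ) := by
      have : k + (j + 1) = (k + j).succ := by omega
      rw [this]
      have h4 : (k + j).succ.choose (j + 1) * (j + 1) = (k + j).succ * (k + j).choose j := h2.symm
      have h5 : (((k + j).succ.choose (j + 1) : ℕ) : ℤ) * ((j + 1 : ℕ) : ℤ) =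
        ((k + j).succ : ℕ) * ((k + j).choose j : ℕ) := by exact_mod_cast h4
      push_cast at h5 ⊢
      linarith
    calc ((j : ℤ) + 1) ^ 2 * ((k.choose (j + 1) : ℤ) * ((k + (j + 1)).choose (j + 1) : ℤ))
        = ((k.choose (j + 1) : ℤ) * ((j : ℤ) + 1)) *
          (((k + (j + 1)).choose (j + 1) : ℤ) * ((j : ℤ) + 1)) := by ring
      _ = ((k.choose j : ℤ) * ((k : ℤ) - j)) * (((k : ℤ) + j + 1) * ((k + j).choose j : ℤ)) := by
        rw [e1, e2]
      _ = _ := by ring

/-- structure constants -/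
def LL (i l j : ℕ) : ℤ := (j.choose i : ℤ) * (j.choose l) * ((i + l).choose j)

lemma LL_zero (l j : ℕ) : LL 0 l j = if j = l then 1 else 0 := by
  unfold LL
  split_ifs with h
  · subst h
    simp
  · rcases lt_or_gt_of_ne h with h1 | h1
    · rw [Nat.choose_eq_zero_of_lt h1]
      simp
    · rw [Nat.choose_eq_zero_of_lt (show 0 + l < j by omega)]
      simp

/-- the recurrence of the structure constants, at `j = 0` and `j + 1` -/
lemma LL_succ_zero (i l : ℕ) : LL (i + 1) l 0 = 0 := by
  unfold LL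
  simp

lemma choose_step (a b : ℕ) : (a.choose (b + 1) : ℤ) * ((b : ℤ) + 1) = (a.choose b) * ((a : ℤ) - b) := by
  rcases lt_or_ge a b with h | h
  · rw [Nat.choose_eq_zero_of_lt h, Nat.choose_eq_zero_of_lt (show a < b + 1 by omega)]
    simp
  · have h1 := Nat.choose_succ_right_eq a b
    have : ((a - b : ℕ) : ℤ) = (a : ℤ) - b := by
      push_cast [Nat.cast_sub h]
      ring
    rw [← this]
    exact_mod_cast h1

lemma choose_step2 (a b : ℕ) :
    ((a + 1).choose (b + 1) : ℤ) * ((b : ℤ) + 1) = ((a : ℤ) + 1) * (a.choose b) := by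
  have h := Nat.add_one_mul_choose_eq a b
  have h5 : (((a + 1).choose (b + 1) : ℕ) : ℤ) * ((b + 1 : ℕ) : ℤ) =
        ((a + 1 : ℕ) : ℤ) * (a.choose b : ℕ) := by exact_mod_cast h.symm
  push_cast at h5 ⊢
  linarith

lemma choose_step3 (a b : ℕ) :
    ((a + 1).choose b : ℤ) * ((a : ℤ) + 1 - b) = ((a : ℤ) + 1) * (a.choose b) := by
  cases b with
  | zero => simp
  | succ b =>
    have h1 := choose_step2 a b
    have h2 := choose_step a b
    have h3 := choose_step (a + 1) b
    have h4 : ((a + 1).choose (b + 1) : ℤ) = a.choose b + a.choose (b + 1) := by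
      rw [Nat.choose_succ_succ]
      push_cast
      ring
    rw [h4]
    push_cast
    linear_combination (-1 : ℤ) * h2 

lemma LL_succ_succ (i l j : ℕ) :
    ((i : ℤ) + 1) ^ 2 * LL (i + 1) l (j + 1) =
      ((j : ℤ) + 1) ^ 2 * LL i l j +
        (((j : ℤ) + 1) * ((j : ℤ) + 2) - (i : ℤ) * (i + 1)) * LL i l (j + 1) := by
  unfold LL
  have a1 := choose_step2 j i
  have a2 := choose_step3 j i
  have a3 := choose_step3 j l
  have a4 := choose_step (i + l) j
  have a5 := choose_step2 (i + l) j
  have e : i + 1 + l = i + l + 1 := by ring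
  rw [e]
  push_cast at *
  by_cases hl : l = j + 1
  · subst hl
    have a6 := choose_step3 (i + (j + 1)) (j + 1)
    have z : j.choose (j + 1) = 0 := Nat.choose_eq_zero_of_lt (by omega)
    rw [z, Nat.choose_self]
    push_cast at *
    have a7 : ((i + (j + 1) + 1).choose (j + 1) : ℤ) * ((i : ℤ) + 1) =
        ((i : ℤ) + j + 2) * ((i + (j + 1)).choose (j + 1)) := by
      linear_combination a6
    calc ((i : ℤ) + 1) ^ 2 * (((j + 1).choose (i + 1) : ℤ) * 1 *
            ((i + (j + 1) + 1).choose (j + 1)))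
        = (((j + 1).choose (i + 1) : ℤ) * ((i : ℤ) + 1)) *
          (((i + (j + 1) + 1).choose (j + 1) : ℤ) * ((i : ℤ) + 1)) := by ring
      _ = (((j : ℤ) + 1) * (j.choose i)) * (((i : ℤ) + j + 2) *
          ((i + (j + 1)).choose (j + 1))) := by rw [a1, a7]
      _ = ((j : ℤ) + i + 2) * (((j : ℤ) + 1) * (j.choose i)) *
          ((i + (j + 1)).choose (j + 1)) := by ring
      _ = ((j : ℤ) + i + 2) * (((j + 1).choose i : ℤ) * ((j : ℤ) + 1 - i)) *
          ((i + (j + 1)).choose (j + 1)) := by rw [a2]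
      _ = _ := by ring
  · have hne : ((j : ℤ) + 1 - l) ≠ 0 := by
      intro h
      apply hl
      omega
    apply mul_right_cancel₀ hne
    calc ((i : ℤ) + 1) ^ 2 * (((j + 1).choose (i + 1) : ℤ) * ((j + 1).choose l) *
            ((i + l + 1).choose (j + 1))) * ((j : ℤ) + 1 - l)
        = ((i : ℤ) + 1) * (((j + 1).choose (i + 1) : ℤ) * ((i : ℤ) + 1)) *
          (((j + 1).choose l : ℤ) * ((j : ℤ) + 1 - l)) * ((i + l + 1).choose (j + 1)) := by ring
      _ = ((i : ℤ) + 1) * (((j : ℤ) + 1) * (j.choose i)) * (((j : ℤ) + 1) * (j.choose l)) *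
          ((i + l + 1).choose (j + 1)) := by rw [a1, a3]
      _ = ((i : ℤ) + 1) * (((j : ℤ) + 1) * (j.choose i)) * (j.choose l) *
          (((i + l + 1).choose (j + 1) : ℤ) * ((j : ℤ) + 1)) := by ring
      _ = ((i : ℤ) + 1) * (((j : ℤ) + 1) * (j.choose i)) * (j.choose l) *
          (((i : ℤ) + l + 1) * ((i + l).choose j)) := by rw [a5]
      _ = ((j : ℤ) + 1) ^ 2 * ((j.choose i : ℤ) * (j.choose l) * ((i + l).choose j)) *
            ((j : ℤ) + 1 - l) +
          ((j : ℤ) + i + 2) * (((j : ℤ) + 1) * (j.choose i)) * (j.choose l) *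
            (((i + l).choose j : ℤ) * ((i : ℤ) + l - j)) := by ring
      _ = ((j : ℤ) + 1) ^ 2 * ((j.choose i : ℤ) * (j.choose l) * ((i + l).choose j)) *
            ((j : ℤ) + 1 - l) +
          ((j : ℤ) + i + 2) * (((j : ℤ) + 1) * (j.choose i)) * (j.choose l) *
            (((i + l).choose (j + 1) : ℤ) * ((j : ℤ) + 1)) := by rw [a4]
      _ = ((j : ℤ) + 1) ^ 2 * ((j.choose i : ℤ) * (j.choose l) * ((i + l).choose j)) *
            ((j : ℤ) + 1 - l) +
          ((j : ℤ) + i + 2) * (((j : ℤ) + 1) * (j.choose i)) *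
            (((j : ℤ) + 1) * (j.choose l)) * ((i + l).choose (j + 1)) := by ring
      _ = ((j : ℤ) + 1) ^ 2 * ((j.choose i : ℤ) * (j.choose l) * ((i + l).choose j)) *
            ((j : ℤ) + 1 - l) +
          ((j : ℤ) + i + 2) * (((j + 1).choose i : ℤ) * ((j : ℤ) + 1 - i)) *
            (((j + 1).choose l : ℤ) * ((j : ℤ) + 1 - l)) * ((i + l).choose (j + 1)) := by
        rw [a2, a3]
      _ = _ := by ring

/-- linearization of products -/
lemma cc_mul (i l k : ℕ) : cc i k * cc l k = ∑ j ∈ range (k + 1), LL i l j * cc j k := by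
  induction i with
  | zero =>
    have h1 : ∀ j ∈ range (k + 1), LL 0 l j * cc j k = if j = l then cc l k else 0 := by
      intro j _
      rw [LL_zero]
      split_ifs with h
      · rw [h, one_mul]
      · rw [zero_mul]
    rw [Finset.sum_congr rfl h1, Finset.sum_ite_eq']
    have h0 : cc 0 k = 1 := by simp [cc]
    rw [h0, one_mul]
    split_ifs with h
    · rfl
    · rw [mem_range] at h
      exact cc_eq_zero l k (by omega)
  | succ i ih =>
    have hne : ((i : ℤ) + 1) ^ 2 ≠ 0 := by positivity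
    apply mul_left_cancel₀ hne
    have h1 : ((i : ℤ) + 1) ^ 2 * (cc (i + 1) k * cc l k) =
        ((k : ℤ) * (k + 1) - i * (i + 1)) * (cc i k * cc l k) := by
      rw [← mul_assoc, cc_succ]
      ring
    rw [h1, ih, Finset.mul_sum, Finset.mul_sum]
    -- left: split (y - i(i+1)) = (y - j(j+1)) + (j(j+1) - i(i+1))
    have h2 : ∀ j ∈ range (k + 1), ((k : ℤ) * (k + 1) - i * (i + 1)) * (LL i l j * cc j k) =
        LL i l j * (((j : ℤ) + 1) ^ 2 * cc (j + 1) k) +
          ((j : ℤ) * (j + 1) - i * (i + 1)) * LL i l j * cc j k := by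
      intro j _
      rw [cc_succ]
      ring
    rw [Finset.sum_congr rfl h2, Finset.sum_add_distrib]
    rw [Finset.sum_range_succ' (fun j => ((j : ℤ) * (j + 1) - i * (i + 1)) * LL i l j * cc j k) k,
      Finset.sum_range_succ (fun j => LL i l j * (((j : ℤ) + 1) ^ 2 * cc (j + 1) k)) k,
      Finset.sum_range_succ' (fun j => ((i : ℤ) + 1) ^ 2 * (LL (i + 1) l j * cc j k)) k]
    have h3 : cc (k + 1) k = 0 := cc_eq_zero _ _ (by omega)
    rw [h3, LL_succ_zero]
    have h4 : (((0 : ℕ) : ℤ) * (((0 : ℕ) : ℤ) + 1) - i * (i + 1)) * LL i l 0 * cc 0 k = 0 := by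
      rcases Nat.eq_zero_or_pos i with h | h
      · subst h
        simp
      · have : LL i l 0 = 0 := by
          unfold LL
          rw [Nat.choose_eq_zero_of_lt h]
          simp
        rw [this]
        simp
    rw [h4]
    simp only [mul_zero, zero_mul, add_zero]
    rw [← Finset.sum_add_distrib]
    apply Finset.sum_congr rfl
    intro j _
    have h5 := LL_succ_succ i l j
    push_cast
    linear_combination (-(cc (j + 1) k)) * h5

lemma InR.mul {f g : ℕ → ℤ} (hf : InR f) (hg : InR g) : InR (fun k => f k * g k) := by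
  obtain ⟨b, hb⟩ := hf
  obtain ⟨b', hb'⟩ := hg
  refine ⟨fun j => ∑ i ∈ range (j + 1), ∑ l ∈ range (j + 1), b i * b' l * LL i l j, ?_⟩
  intro k
  simp only
  rw [hb k, hb' k, Finset.sum_mul_sum]
  have h1 : ∀ i ∈ range (k + 1), ∀ l ∈ range (k + 1), b i * cc i k * (b' l * cc l k) =
      ∑ j ∈ range (k + 1), b i * b' l * LL i l j * cc j k := by
    intro i _ l _
    have := cc_mul i l k
    calc b i * cc i k * (b' l * cc l k) = b i * b' l * (cc i k * cc l k) := by ring
      _ = _ := by
        rw [this, Finset.mul_sum]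
        apply Finset.sum_congr rfl
        intro j _
        ring
  rw [Finset.sum_congr rfl (fun i hi => Finset.sum_congr rfl (fun l hl => h1 i hi l hl))]
  have h2 : ∑ i ∈ range (k + 1), ∑ l ∈ range (k + 1), ∑ j ∈ range (k + 1),
      b i * b' l * LL i l j * cc j k =
      ∑ j ∈ range (k + 1), ∑ i ∈ range (k + 1), ∑ l ∈ range (k + 1),
      b i * b' l * LL i l j * cc j k := by
    rw [Finset.sum_congr rfl (fun i _ => Finset.sum_comm), Finset.sum_comm]
  rw [h2]
  apply Finset.sum_congr rfl
  intro j hj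
  rw [mem_range] at hj
  rw [Finset.sum_mul]
  symm
  have h3 : ∑ i ∈ range (j + 1), (∑ l ∈ range (j + 1), b i * b' l * LL i l j) * cc j k =
      ∑ i ∈ range (k + 1), (∑ l ∈ range (j + 1), b i * b' l * LL i l j) * cc j k := by
    apply Finset.sum_subset
    · intro x hx
      rw [mem_range] at *
      omega
    · intro x _ hx
      rw [mem_range] at hx
      have : ∀ l, LL x l j = 0 := by
        intro l
        unfold LL
        rw [Nat.choose_eq_zero_of_lt (show j < x by omega)]
        simp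
      simp [this]
  rw [h3]
  apply Finset.sum_congr rfl
  intro i _
  rw [Finset.sum_mul]
  apply Finset.sum_subset
  · intro x hx
    rw [mem_range] at *
    omega
  · intro x _ hx
    rw [mem_range] at hx
    have : LL i x j = 0 := by
      unfold LL
      rw [Nat.choose_eq_zero_of_lt (show j < x by omega)]
      simp
    rw [this]
    simp

lemma InR.one : InR (fun _ => 1) := by
  refine ⟨fun j => if j = 0 then 1 else 0, ?_⟩
  intro k
  rw [Finset.sum_eq_single 0]
  · simp [cc]
  · intro j _ hj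
    simp [hj]
  · intro h
    simp at h

lemma InR.pow {f : ℕ → ℤ} (hf : InR f) (m : ℕ) : InR (fun k => f k ^ m) := by
  induction m with
  | zero => simpa using InR.one
  | succ m ih =>
    have := ih.mul hf
    simpa [pow_succ] using this

lemma sum_cc (j n : ℕ) : ∑ k ∈ range n, (2 * (k : ℤ) + 1) * cc j k =
    n * ((n.choose (j + 1) : ℤ) * ((n + j).choose j)) := by
  induction n with
  | zero => simp
  | succ n ih =>
    rw [Finset.sum_range_succ, ih]
    unfold cc
    have a1 := choose_step n j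
    have a2 : ((n + 1).choose (j + 1) : ℤ) = n.choose j + n.choose (j + 1) := by
      rw [Nat.choose_succ_succ]
      push_cast
      ring
    have a3 := choose_step3 (n + j) j
    have e : n + 1 + j = n + j + 1 := by ring
    rw [e, a2]
    push_cast at *
    have hne : ((j : ℤ) + 1) ≠ 0 := by positivity
    apply mul_left_cancel₀ hne
    have a4 : ((n + j + 1).choose j : ℤ) * ((n : ℤ) + 1) = ((n : ℤ) + j + 1) * ((n + j).choose j) := by
      linear_combination a3
    have key : ((j : ℤ) + 1) * (((n : ℤ) + 1) * (((n.choose j : ℤ) + n.choose (j + 1)) *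
        ((n + j + 1).choose j))) =
        ((n : ℤ) + j + 1) * ((n + j).choose j) * ((n : ℤ) + 1) * (n.choose j) := by
      calc ((j : ℤ) + 1) * (((n : ℤ) + 1) * (((n.choose j : ℤ) + n.choose (j + 1)) *
        ((n + j + 1).choose j))) =
          (((j : ℤ) + 1) * (n.choose j : ℤ) + (n.choose (j + 1) : ℤ) * ((j : ℤ) + 1)) *
          (((n + j + 1).choose j : ℤ) * ((n : ℤ) + 1)) := by ring
        _ = (((j : ℤ) + 1) * (n.choose j : ℤ) + (n.choose j : ℤ) * ((n : ℤ) - j)) *
          (((n : ℤ) + j + 1) * ((n + j).choose j)) := by rw [a1, a4]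
        _ = _ := by ring
    rw [key]
    linear_combination ((n : ℤ) * ((n + j).choose j)) * a1

lemma sum_cc_alt (j n : ℕ) : ∑ k ∈ range (n + 1), (-1) ^ k * (2 * (k : ℤ) + 1) * cc j k =
    (-1) ^ n * ((n : ℤ) + 1) * ((n.choose j : ℤ) * ((n + 1 + j).choose j)) := by
  induction n with
  | zero =>
    rcases Nat.eq_zero_or_pos j with h | h
    · subst h
      simp [cc]
    · rw [Finset.sum_range_one]
      unfold cc
      rw [Nat.choose_eq_zero_of_lt h]
      simp
  | succ n ih =>
    rw [Finset.sum_range_succ, ih]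
    unfold cc
    have a1 := choose_step3 n j
    have a3 := choose_step3 (n + 1 + j) j
    have e : n + 1 + 1 + j = n + 1 + j + 1 := by ring
    rw [e]
    push_cast at *
    have a4 : ((n + 1 + j + 1).choose j : ℤ) * ((n : ℤ) + 2) =
        ((n : ℤ) + j + 2) * ((n + 1 + j).choose j) := by
      linear_combination a3
    rw [pow_succ]
    linear_combination (-1 : ℤ) ^ n * ((n + 1 + j).choose j) * (-1) * a1 +
      (-1 : ℤ) ^ n * ((n + 1).choose j) * a4

lemma InR.dvd_sum {f : ℕ → ℤ} (hf : InR f) (n : ℕ) :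
    (n : ℤ) ∣ ∑ k ∈ range n, (2 * (k : ℤ) + 1) * f k := by
  obtain ⟨b, hb⟩ := hf
  have h1 : ∑ k ∈ range n, (2 * (k : ℤ) + 1) * f k =
      ∑ j ∈ range n, b j * ∑ k ∈ range n, (2 * (k : ℤ) + 1) * cc j k := by
    have h2 : ∀ k ∈ range n, (2 * (k : ℤ) + 1) * f k =
        ∑ j ∈ range n, b j * ((2 * (k : ℤ) + 1) * cc j k) := by
      intro k hk
      rw [mem_range] at hk
      rw [hb k]
      have : ∑ j ∈ range (k + 1), b j * cc j k = ∑ j ∈ range n, b j * cc j k := by
        apply Finset.sum_subset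
        · intro x hx
          rw [mem_range] at *
          omega
        · intro x _ hx
          rw [mem_range] at hx
          rw [cc_eq_zero x k (by omega)]
          simp
      rw [this, Finset.mul_sum]
      apply Finset.sum_congr rfl
      intro j _
      ring
    rw [Finset.sum_congr rfl h2, Finset.sum_comm]
    apply Finset.sum_congr rfl
    intro j _
    rw [Finset.mul_sum]
  rw [h1]
  apply Finset.dvd_sum
  intro j _
  rw [sum_cc]
  exact Dvd.dvd.mul_left (Dvd.intro _ rfl) _

lemma InR.dvd_sum_alt {f : ℕ → ℤ} (hf : InR f) (n : ℕ) :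
    (n : ℤ) ∣ ∑ k ∈ range n, (-1) ^ k * (2 * (k : ℤ) + 1) * f k := by
  cases n with
  | zero => simp
  | succ n =>
  obtain ⟨b, hb⟩ := hf
  have h1 : ∑ k ∈ range (n + 1), (-1) ^ k * (2 * (k : ℤ) + 1) * f k =
      ∑ j ∈ range (n + 1), b j * ∑ k ∈ range (n + 1), (-1) ^ k * (2 * (k : ℤ) + 1) * cc j k := by
    have h2 : ∀ k ∈ range (n + 1), (-1) ^ k * (2 * (k : ℤ) + 1) * f k =
        ∑ j ∈ range (n + 1), b j * ((-1) ^ k * (2 * (k : ℤ) + 1) * cc j k) := by
      intro k hk
      rw [mem_range] at hk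
      rw [hb k]
      have : ∑ j ∈ range (k + 1), b j * cc j k = ∑ j ∈ range (n + 1), b j * cc j k := by
        apply Finset.sum_subset
        · intro x hx
          rw [mem_range] at *
          omega
        · intro x _ hx
          rw [mem_range] at hx
          rw [cc_eq_zero x k (by omega)]
          simp
      rw [this, Finset.mul_sum]
      apply Finset.sum_congr rfl
      intro j _
      ring
    rw [Finset.sum_congr rfl h2, Finset.sum_comm]
    apply Finset.sum_congr rfl
    intro j _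
    rw [Finset.mul_sum]
  rw [h1]
  apply Finset.dvd_sum
  intro j _
  rw [sum_cc_alt]
  push_cast
  apply Dvd.dvd.mul_left
  exact ⟨(-1) ^ n * ((n.choose j : ℤ) * ((n + 1 + j).choose j)), by ring⟩

end Pool.Agent.Lib.MP_2a941c_nt
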